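import Pool.Agent.Y449.MK.Sub

set_option autoImplicit false

open Pool.Agent.W689.Mk Pool.Agent.Y449.MK

namespace Pool.Agent.Results.MP_df2bd8_gt.DomainQuotients

/-- A closed affine manifold with parallel volume, given by a cover `X` with its group `Γ`,
developing map `dev` and holonomy `hol`; assume that the developing map is injective, so that the
manifold is a quotient `Γ \ Ω` of a domain `Ω` of the affine space.

(1) If the linear holonomy is virtually abelian (the linear parts of the elements of a subgroup `H`
of finite index commute), the structure is complete.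

(2) More generally let `F 0 = 0` and let `F (m + 1)` be spanned by `F m` and the vectors `v` such
that some element of `H` acts as the translation by `v` modulo `F m` (`Tower hol H m`). If for some
`m` the elements of `H` commute modulo `F m`, the structure is complete. -/
theorem result (E X Γ : Type) [NormedAddCommGroup E] [NormedSpace ℝ E] [FiniteDimensional ℝ E]
    [TopologicalSpace X] [T2Space X] [SecondCountableTopology X] [Nonempty X]
    [Group Γ] [MulAction Γ X] (dev : X → E) (hol : Γ →* (E ≃ᵃ[ℝ] E))
    (D : AffData X Γ E dev hol) (hinj : Function.Injective dev)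
    (H : Subgroup Γ) (hH : H.FiniteIndex) :
    ((∀ γ ∈ H, ∀ δ ∈ H, ∀ v : E,
        (hol γ).linear ((hol δ).linear v) = (hol δ).linear ((hol γ).linear v)) →
      IsHomeomorph dev) ∧
    (∀ m : ℕ, (∀ γ ∈ H, ∀ δ ∈ H, ∀ q : E, hol (γ * δ) q - hol (δ * γ) q ∈ Tower hol H m) →
      IsHomeomorph dev) :=
  ⟨abelian_complete D hinj H hH, tower_complete D hinj H hH⟩

end Pool.Agent.Results.MP_df2bd8_gt.DomainQuotients
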