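import Pool.Agent.Y449.MK.DomDefs

/-!
Closed affine manifolds with parallel volume whose linear holonomy has a dominated splitting, or is
at bounded distance from a cyclic group.
-/

set_option autoImplicit false

open Pool.Agent.W689.Mk Pool.Agent.TH569.MK Pool.Agent.Y449.MK

namespace Pool.Agent.Results.MP_df2bd8_gt.DominatedHolonomy

/-- A closed affine manifold with parallel volume is given by a connected cover `X` with its group
`Γ`, developing map `dev` and holonomy `hol`; `H` is a subgroup of finite index of `Γ`.

(1) Suppose that `V`, `W` and `S 0, S 1, …, S m` are linear subspaces of the model vector space,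
`V`, `W` and `S m` invariant under the linear holonomy of `H`, with `V + W + S m` everything, such
that

* all geodesics with velocity in `S 0` are defined up to time one, and the linear holonomy of `H` is
  bounded on `S (i + 1)` modulo `S i` for all `i < m`,
* (domination) where the linear holonomy is large on `V`, it is small on `W`,
* where the linear holonomy is large on `V` (on `W`), its inverse is small on `V` (on `W`).

Then the affine structure is complete: the developing map is a homeomorphism onto the model space.

(2) Suppose that all linear holonomies of elements of `H` commute with a fixed linear automorphism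
`T` and are at bounded distance from its powers. Then the affine structure is complete. -/
theorem result (E X Γ : Type) [NormedAddCommGroup E] [NormedSpace ℝ E] [FiniteDimensional ℝ E]
    [TopologicalSpace X] [T2Space X] [SecondCountableTopology X] [ConnectedSpace X]
    [Group Γ] [MulAction Γ X] (dev : X → E) (hol : Γ →* (E ≃ᵃ[ℝ] E))
    (D : AffData X Γ E dev hol) (H : Subgroup Γ) (hH : H.FiniteIndex) :
    (∀ (V W : Submodule ℝ E) (S : ℕ → Submodule ℝ E) (m : ℕ), V ⊔ (W ⊔ S m) = ⊤ →
      Invt hol H V → Invt hol H W → Invt hol H (S m) → BddChain dev hol H S m →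
      Dominates hol H V W → Expands hol H V → Expands hol H W → IsHomeomorph dev) ∧
    (NearCyclic hol H → IsHomeomorph dev) := by
  have DH := restrict D H hH
  refine ⟨?_, ?_⟩
  · intro V W S m hsum iV iW iS hS hD hV hW
    refine dom_complete DH (V := V) (W := W) (S := S m) hsum (fun γ => iV γ γ.2)
      (fun γ => iW γ γ.2) (fun γ => iS γ γ.2) ?_ ?_ ?_ ?_
    · intro ε hε
      obtain ⟨R, hR⟩ := hD ε hε
      exact ⟨R, fun γ => hR γ γ.2⟩
    · intro ε hε
      obtain ⟨R, hR⟩ := hV ε hε
      exact ⟨R, fun γ => hR γ γ.2⟩
    · intro ε hε
      obtain ⟨R, hR⟩ := hW ε hε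
      exact ⟨R, fun γ => hR γ γ.2⟩
    · refine chain_complete DH S m (fun x v hv => Geod.ex D.loc (hS.1 x v hv)) fun i hi => ?_
      obtain ⟨C, hC'⟩ := hS.2 i hi
      exact ⟨C, fun γ => hC' γ γ.2⟩
  · rintro ⟨T, C, hC⟩
    exact cyc_complete DH T (fun γ => (hC γ γ.2).1) (C := C) fun γ => (hC γ γ.2).2

end Pool.Agent.Results.MP_df2bd8_gt.DominatedHolonomy
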