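import Pool.Agent.Y449.MS.All

set_option autoImplicit false

open Pool.Agent.W689.Mk

namespace Pool.Agent.Results.MP_df2bd8_gt.SolvableGroups

/-- A closed affine manifold with parallel volume, given by a cover `X` with its group `Γ`,
developing map `dev` and holonomy `hol`; assume that the developing map is injective, so that the
manifold is a quotient `Γ \ Ω` of a domain `Ω` of the affine space.

If the linear holonomy is virtually solvable (the linear parts of the elements of a subgroup `H` of
finite index form a solvable group), then the structure is complete, `Ω` is the whole space. -/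
theorem result (E X Γ : Type) [NormedAddCommGroup E] [NormedSpace ℝ E] [FiniteDimensional ℝ E]
    [TopologicalSpace X] [T2Space X] [SecondCountableTopology X] [Nonempty X]
    [Group Γ] [MulAction Γ X] (dev : X → E) (hol : Γ →* (E ≃ᵃ[ℝ] E))
    (D : AffData X Γ E dev hol) (hinj : Function.Injective dev)
    (H : Subgroup Γ) (hH : H.FiniteIndex)
    (hs : Group.IsSolvable (H.map (AffineEquiv.linearHom.comp hol))) :
    IsHomeomorph dev :=
  Pool.Agent.Y449.MS.Wrap.main Pool.Agent.Y449.MS.All.finv X Γ E dev hol D hinj H hH hs

end Pool.Agent.Results.MP_df2bd8_gt.SolvableGroups
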